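import Mathlib

set_option autoImplicit false

namespace Pool.Agent.W_MP_7bf775_co

open Finset

/-! ### Dyadic arithmetic -/

theorem div_pow_succ (x r : ℕ) : x / 2 ^ (r + 1) = (x / 2 ^ r) / 2 := by
  rw [pow_succ, Nat.div_div_eq_div_mul]

theorem lt_of_split {x y r : ℕ} (h : x / 2 ^ (r + 1) = y / 2 ^ (r + 1))
    (hx : (x / 2 ^ r) % 2 = 0) (hy : (y / 2 ^ r) % 2 = 1) : x < y := by
  rw [div_pow_succ, div_pow_succ] at h
  by_contra hle
  have : y / 2 ^ r ≤ x / 2 ^ r := Nat.div_le_div_right (by omega)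
  omega

theorem div_eq_of_le {x r s : ℕ} {y : ℕ} (hrs : r ≤ s) (h : x / 2 ^ r = y / 2 ^ r) :
    x / 2 ^ s = y / 2 ^ s := by
  obtain ⟨d, rfl⟩ := Nat.exists_eq_add_of_le hrs
  rw [pow_add, ← Nat.div_div_eq_div_mul, ← Nat.div_div_eq_div_mul, h]

theorem exists_split {x y s : ℕ} (hxy : x < y) (h : x / 2 ^ s = y / 2 ^ s) :
    ∃ r < s, x / 2 ^ (r + 1) = y / 2 ^ (r + 1) ∧ (x / 2 ^ r) % 2 = 0 ∧ (y / 2 ^ r) % 2 = 1 := by
  classical
  have hex : ∃ s, x / 2 ^ s = y / 2 ^ s := ⟨s, h⟩
  set m := Nat.find hex with hm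
  have hspec : x / 2 ^ m = y / 2 ^ m := Nat.find_spec hex
  have hmin : ∀ t < m, x / 2 ^ t ≠ y / 2 ^ t := fun t ht => Nat.find_min hex ht
  have hms : m ≤ s := Nat.find_le h
  rcases Nat.eq_zero_or_pos m with h0 | hpos
  · rw [h0] at hspec
    simp at hspec
    omega
  · obtain ⟨r, hr⟩ : ∃ r, m = r + 1 := ⟨m - 1, by omega⟩
    refine ⟨r, by omega, by rw [← hr]; exact hspec, ?_⟩
    have h1 : x / 2 ^ r ≠ y / 2 ^ r := hmin r (by omega)
    have h2 : x / 2 ^ r ≤ y / 2 ^ r := Nat.div_le_div_right (by omega)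
    rw [hr, div_pow_succ, div_pow_succ] at hspec
    omega

theorem same_half_lt {g k i r : ℕ} (hgi : i / 2 ^ (r + 1) = g / 2 ^ (r + 1))
    (hk : k / 2 ^ (r + 1) ≠ i / 2 ^ (r + 1)) (hik : i < k) : g < k := by
  have h1 : i / 2 ^ (r + 1) ≤ k / 2 ^ (r + 1) := Nat.div_le_div_right (by omega)
  by_contra hle
  have h2 : k / 2 ^ (r + 1) ≤ g / 2 ^ (r + 1) := Nat.div_le_div_right (by omega)
  omega

theorem same_half_gt {f k l u : ℕ} (hfl : f / 2 ^ (u + 1) = l / 2 ^ (u + 1))
    (hk : k / 2 ^ (u + 1) ≠ l / 2 ^ (u + 1)) (hkl : k < l) : k < f := by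
  have h1 : k / 2 ^ (u + 1) ≤ l / 2 ^ (u + 1) := Nat.div_le_div_right (by omega)
  by_contra hle
  have h2 : f / 2 ^ (u + 1) ≤ k / 2 ^ (u + 1) := Nat.div_le_div_right (by omega)
  omega

/-! ### The relation across a dyadic split -/

/-- `i` and `l` are related and the dyadic interval at level `s + 1` splits them. -/
def Sp (R : ℕ → ℕ → Prop) (s i l : ℕ) : Prop :=
  i / 2 ^ (s + 1) = l / 2 ^ (s + 1) ∧ (i / 2 ^ s) % 2 = 0 ∧ (l / 2 ^ s) % 2 = 1 ∧ R i l

theorem Sp.lt {R : ℕ → ℕ → Prop} {s i l : ℕ} (h : Sp R s i l) : i < l :=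
  lt_of_split h.1 h.2.1 h.2.2.1

/-- least partner to the right across the split -/
noncomputable def fR (R : ℕ → ℕ → Prop) (s i : ℕ) : ℕ := sInf {l | Sp R s i l}

/-- greatest partner to the left across the split -/
noncomputable def gR (R : ℕ → ℕ → Prop) (s l : ℕ) : ℕ := sSup {i | Sp R s i l}

theorem fR_spec {R : ℕ → ℕ → Prop} {s i l : ℕ} (h : Sp R s i l) : Sp R s i (fR R s i) :=
  Nat.sInf_mem (s := {l | Sp R s i l}) ⟨l, h⟩

theorem fR_le {R : ℕ → ℕ → Prop} {s i l : ℕ} (h : Sp R s i l) : fR R s i ≤ l :=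
  Nat.sInf_le (s := {l | Sp R s i l}) h

theorem gR_bdd {R : ℕ → ℕ → Prop} {s l : ℕ} : BddAbove {i | Sp R s i l} :=
  ⟨l, fun _ h => (Sp.lt h).le⟩

theorem gR_spec {R : ℕ → ℕ → Prop} {s i l : ℕ} (h : Sp R s i l) : Sp R s (gR R s l) l :=
  Nat.sSup_mem (s := {i | Sp R s i l}) ⟨i, h⟩ gR_bdd

theorem le_gR {R : ℕ → ℕ → Prop} {s i l : ℕ} (h : Sp R s i l) : i ≤ gR R s l :=
  le_csSup gR_bdd h

/-- all partners of `i` to the right inside its block of level `s` lie in its block of level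
`r + 1`. -/
def CL (R : ℕ → ℕ → Prop) (i s r : ℕ) : Prop :=
  ∀ k, i < k → k / 2 ^ s = i / 2 ^ s → R i k → k / 2 ^ (r + 1) = i / 2 ^ (r + 1)

/-- all partners of `l` to the left inside its block of level `s` lie in its block of level
`u + 1`. -/
def CR (R : ℕ → ℕ → Prop) (l s u : ℕ) : Prop :=
  ∀ k, k < l → k / 2 ^ s = l / 2 ^ s → R k l → k / 2 ^ (u + 1) = l / 2 ^ (u + 1)

/-- The capped condition for a relation on the natural numbers. -/
def CappedRel (R : ℕ → ℕ → Prop) : Prop :=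
  ∀ i j k l, i < j → j < k → k < l → R i k → R j l → R i l

/-- Labels of the bicliques: a kind, and three dyadic blocks given by a level and an index. -/
structure Key where
  kind : ℕ
  s : ℕ
  w : ℕ
  r : ℕ
  a : ℕ
  u : ℕ
  b : ℕ
  deriving DecidableEq

open Classical in
noncomputable def kLa (R : ℕ → ℕ → Prop) (K i : ℕ) : Finset Key :=
  ((range K ×ˢ range K).filter (fun p => p.2 < p.1 ∧ (i / 2 ^ p.1) % 2 = 0 ∧
    (i / 2 ^ p.2) % 2 = 0 ∧ ¬ CL R i p.1 p.2)).image
    (fun p => Key.mk 0 p.1 (i / 2 ^ (p.1 + 1)) p.2 (i / 2 ^ (p.2 + 1)) 0 0)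

open Classical in
noncomputable def kRa (R : ℕ → ℕ → Prop) (K l : ℕ) : Finset Key :=
  ((range K ×ˢ range K).filter (fun p => p.2 < p.1 ∧ Sp R p.1 (gR R p.1 l) l ∧
    (gR R p.1 l / 2 ^ p.2) % 2 = 1)).image
    (fun p => Key.mk 0 p.1 (l / 2 ^ (p.1 + 1)) p.2 (gR R p.1 l / 2 ^ (p.2 + 1)) 0 0)

open Classical in
noncomputable def kLb (R : ℕ → ℕ → Prop) (K i : ℕ) : Finset Key :=
  ((range K ×ˢ range K).filter (fun p => p.2 < p.1 ∧ Sp R p.1 i (fR R p.1 i) ∧
    (fR R p.1 i / 2 ^ p.2) % 2 = 0)).image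
    (fun p => Key.mk 1 p.1 (i / 2 ^ (p.1 + 1)) 0 0 p.2 (fR R p.1 i / 2 ^ (p.2 + 1)))

open Classical in
noncomputable def kRb (R : ℕ → ℕ → Prop) (K l : ℕ) : Finset Key :=
  ((range K ×ˢ range K).filter (fun p => p.2 < p.1 ∧ (l / 2 ^ p.1) % 2 = 1 ∧
    (l / 2 ^ p.2) % 2 = 1 ∧ ¬ CR R l p.1 p.2)).image
    (fun p => Key.mk 1 p.1 (l / 2 ^ (p.1 + 1)) 0 0 p.2 (l / 2 ^ (p.2 + 1)))

open Classical in
/-- the admissible pairs of levels for a left end -/
noncomputable def pL (R : ℕ → ℕ → Prop) (K i : ℕ) : Finset (ℕ × ℕ) :=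
  (range K ×ˢ range K).filter (fun p => p.2 < p.1 ∧ Sp R p.1 i (fR R p.1 i) ∧
    (i / 2 ^ p.2) % 2 = 0 ∧ CL R i p.1 p.2)

open Classical in
/-- the admissible pairs of levels for a right end -/
noncomputable def pR (R : ℕ → ℕ → Prop) (K l : ℕ) : Finset (ℕ × ℕ) :=
  (range K ×ˢ range K).filter (fun p => p.2 < p.1 ∧ Sp R p.1 (gR R p.1 l) l ∧
    (l / 2 ^ p.2) % 2 = 1 ∧ CR R l p.1 p.2)

noncomputable def kLc (R : ℕ → ℕ → Prop) (K i : ℕ) : Finset Key :=
  ((pL R K i ×ˢ range K).filter (fun q => (fR R q.1.1 i / 2 ^ q.2) % 2 = 0)).image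
    (fun q => Key.mk 2 q.1.1 (i / 2 ^ (q.1.1 + 1)) q.1.2 (i / 2 ^ (q.1.2 + 1)) q.2
      (fR R q.1.1 i / 2 ^ (q.2 + 1)))

noncomputable def kRc (R : ℕ → ℕ → Prop) (K l : ℕ) : Finset Key :=
  ((pR R K l ×ˢ range K).filter (fun q => (gR R q.1.1 l / 2 ^ q.2) % 2 = 1)).image
    (fun q => Key.mk 2 q.1.1 (l / 2 ^ (q.1.1 + 1)) q.2 (gR R q.1.1 l / 2 ^ (q.2 + 1)) q.1.2
      (l / 2 ^ (q.1.2 + 1)))

noncomputable def kLd (K i : ℕ) : Finset Key :=
  (range K).image (fun s => Key.mk 3 s i 0 0 0 0)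

open Classical in
noncomputable def kRd (R : ℕ → ℕ → Prop) (K l : ℕ) : Finset Key :=
  ((range K).filter (fun s => Sp R s (gR R s l) l)).image (fun s => Key.mk 3 s (gR R s l) 0 0 0 0)

open Classical in
noncomputable def kLe (R : ℕ → ℕ → Prop) (K i : ℕ) : Finset Key :=
  ((range K).filter (fun s => Sp R s i (fR R s i))).image (fun s => Key.mk 4 s (fR R s i) 0 0 0 0)

noncomputable def kRe (K l : ℕ) : Finset Key :=
  (range K).image (fun s => Key.mk 4 s l 0 0 0 0)

noncomputable def kL (R : ℕ → ℕ → Prop) (K i : ℕ) : Finset Key :=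
  kLa R K i ∪ (kLb R K i ∪ (kLc R K i ∪ (kLd K i ∪ kLe R K i)))

noncomputable def kR (R : ℕ → ℕ → Prop) (K l : ℕ) : Finset Key :=
  kRa R K l ∪ (kRb R K l ∪ (kRc R K l ∪ (kRd R K l ∪ kRe K l)))

/-! ### Counting -/

theorem card_pL_le (R : ℕ → ℕ → Prop) (K i : ℕ) : (pL R K i).card ≤ K := by
  classical
  have : (pL R K i).card ≤ (range K).card := by
    apply Finset.card_le_card_of_injOn (fun p => p.2)
    · intro p hp
      simp only [pL, coe_filter, Set.mem_ofPred_eq, mem_product, mem_range] at hp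
      simpa using hp.1.2
    · intro p hp q hq hpq
      simp only [pL, coe_filter, Set.mem_ofPred_eq, mem_product, mem_range] at hp hq
      simp only at hpq
      -- symmetric argument
      have key : ∀ p q : ℕ × ℕ, p.2 = q.2 → p.2 < p.1 → Sp R p.1 i (fR R p.1 i) →
          CL R i q.1 q.2 → p.1 < q.1 → False := by
        intro p q hpq h1 h2 h3 hlt
        have h4 := h3 (fR R p.1 i) h2.lt (div_eq_of_le hlt h2.1.symm) h2.2.2.2
        have h5 : fR R p.1 i / 2 ^ p.1 = i / 2 ^ p.1 := div_eq_of_le (by omega) h4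
        have h6 := h2.2.1
        have h7 := h2.2.2.1
        omega
      obtain ⟨_, hp2, hp3, hp4, hp5⟩ := hp
      obtain ⟨_, hq2, hq3, hq4, hq5⟩ := hq
      rcases lt_trichotomy p.1 q.1 with h | h | h
      · exact (key p q hpq hp2 hp3 hq5 h).elim
      · exact Prod.ext h hpq
      · exact (key q p hpq.symm hq2 hq3 hp5 h).elim
  simpa using this

theorem card_pR_le (R : ℕ → ℕ → Prop) (K l : ℕ) : (pR R K l).card ≤ K := by
  classical
  have : (pR R K l).card ≤ (range K).card := by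
    apply Finset.card_le_card_of_injOn (fun p => p.2)
    · intro p hp
      simp only [pR, coe_filter, Set.mem_ofPred_eq, mem_product, mem_range] at hp
      simpa using hp.1.2
    · intro p hp q hq hpq
      simp only [pR, coe_filter, Set.mem_ofPred_eq, mem_product, mem_range] at hp hq
      simp only at hpq
      have key : ∀ p q : ℕ × ℕ, p.2 = q.2 → p.2 < p.1 → Sp R p.1 (gR R p.1 l) l →
          CR R l q.1 q.2 → p.1 < q.1 → False := by
        intro p q hpq h1 h2 h3 hlt
        have h4 := h3 (gR R p.1 l) h2.lt (div_eq_of_le hlt h2.1) h2.2.2.2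
        have h5 : gR R p.1 l / 2 ^ p.1 = l / 2 ^ p.1 := div_eq_of_le (by omega) h4
        have h6 := h2.2.1
        have h7 := h2.2.2.1
        omega
      obtain ⟨_, hp2, hp3, hp4, hp5⟩ := hp
      obtain ⟨_, hq2, hq3, hq4, hq5⟩ := hq
      rcases lt_trichotomy p.1 q.1 with h | h | h
      · exact (key p q hpq hp2 hp3 hq5 h).elim
      · exact Prod.ext h hpq
      · exact (key q p hpq.symm hq2 hq3 hp5 h).elim
  simpa using this

theorem card_img_sq {α : Type*} [DecidableEq α] (K : ℕ) (P : ℕ × ℕ → Prop) [DecidablePred P]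
    (f : ℕ × ℕ → α) : (((range K ×ˢ range K).filter P).image f).card ≤ K * K := by
  refine (card_image_le).trans ((card_filter_le _ _).trans ?_)
  simp

theorem card_img {α : Type*} [DecidableEq α] (K : ℕ) (P : ℕ → Prop) [DecidablePred P]
    (f : ℕ → α) : (((range K).filter P).image f).card ≤ K := by
  refine (card_image_le).trans ((card_filter_le _ _).trans ?_)
  simp

theorem card_kLc_le (R : ℕ → ℕ → Prop) (K i : ℕ) : (kLc R K i).card ≤ K * K := by
  unfold kLc
  refine (card_image_le).trans ((card_filter_le _ _).trans ?_)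
  rw [card_product, card_range]
  exact Nat.mul_le_mul_right _ (card_pL_le R K i)

theorem card_kRc_le (R : ℕ → ℕ → Prop) (K l : ℕ) : (kRc R K l).card ≤ K * K := by
  unfold kRc
  refine (card_image_le).trans ((card_filter_le _ _).trans ?_)
  rw [card_product, card_range]
  exact Nat.mul_le_mul_right _ (card_pR_le R K l)

theorem card_kL_le (R : ℕ → ℕ → Prop) (K i : ℕ) : (kL R K i).card ≤ 5 * (K * K) := by
  classical
  have ha : (kLa R K i).card ≤ K * K := by unfold kLa; apply card_img_sq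
  have hb : (kLb R K i).card ≤ K * K := by unfold kLb; apply card_img_sq
  have hc := card_kLc_le R K i
  have hd : (kLd K i).card ≤ K := by
    unfold kLd; exact (card_image_le).trans (by simp)
  have he : (kLe R K i).card ≤ K := by unfold kLe; apply card_img
  have hK : K ≤ K * K := Nat.le_mul_self K
  have h1 := card_union_le (kLa R K i) (kLb R K i ∪ (kLc R K i ∪ (kLd K i ∪ kLe R K i)))
  have h2 := card_union_le (kLb R K i) (kLc R K i ∪ (kLd K i ∪ kLe R K i))
  have h3 := card_union_le (kLc R K i) (kLd K i ∪ kLe R K i)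
  have h4 := card_union_le (kLd K i) (kLe R K i)
  unfold kL
  omega

theorem card_kR_le (R : ℕ → ℕ → Prop) (K l : ℕ) : (kR R K l).card ≤ 5 * (K * K) := by
  classical
  have ha : (kRa R K l).card ≤ K * K := by unfold kRa; apply card_img_sq
  have hb : (kRb R K l).card ≤ K * K := by unfold kRb; apply card_img_sq
  have hc := card_kRc_le R K l
  have hd : (kRd R K l).card ≤ K := by unfold kRd; apply card_img
  have he : (kRe K l).card ≤ K := by
    unfold kRe; exact (card_image_le).trans (by simp)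
  have hK : K ≤ K * K := Nat.le_mul_self K
  have h1 := card_union_le (kRa R K l) (kRb R K l ∪ (kRc R K l ∪ (kRd R K l ∪ kRe K l)))
  have h2 := card_union_le (kRb R K l) (kRc R K l ∪ (kRd R K l ∪ kRe K l))
  have h3 := card_union_le (kRc R K l) (kRd R K l ∪ kRe K l)
  have h4 := card_union_le (kRd R K l) (kRe K l)
  unfold kR
  omega

/-! ### Soundness -/

theorem sound {R : ℕ → ℕ → Prop} (hR : CappedRel R) {K i l : ℕ} {key : Key}
    (h1 : key ∈ kL R K i) (h2 : key ∈ kR R K l) : R i l := by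
  classical
  simp only [kL, mem_union] at h1
  simp only [kR, mem_union] at h2
  rcases h1 with h1 | h1 | h1 | h1 | h1
  · -- type a
    simp only [kLa, mem_image, mem_filter, mem_product, mem_range, Prod.exists] at h1
    obtain ⟨s, r, ⟨-, hrs, hi1, hi2, hCL⟩, rfl⟩ := h1
    rcases h2 with h2 | h2 | h2 | h2 | h2
    · simp only [kRa, mem_image, mem_filter, mem_product, mem_range, Prod.exists,
        Key.mk.injEq] at h2
      obtain ⟨s', r', ⟨-, -, hSp, hg⟩, -, rfl, hw, rfl, hgi, -, -⟩ := h2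
      have hig : i < gR R s' l := lt_of_split hgi.symm hi2 hg
      simp only [CL, not_forall] at hCL
      obtain ⟨k, hik, hks, hRk, hkr⟩ := hCL
      have hgk : gR R s' l < k := same_half_lt hgi.symm hkr hik
      have hkl : k < l := by
        apply lt_of_split (r := s')
        · rw [hw]; exact div_eq_of_le (Nat.le_succ _) hks
        · rw [hks]; exact hi1
        · exact hSp.2.2.1
      exact hR i _ k l hig hgk hkl hRk hSp.2.2.2
    · exfalso; simp [kRb] at h2
    · exfalso; simp [kRc] at h2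
    · exfalso; simp [kRd] at h2
    · exfalso; simp [kRe] at h2
  · -- type b
    simp only [kLb, mem_image, mem_filter, mem_product, mem_range, Prod.exists] at h1
    obtain ⟨s, u, ⟨-, hus, hSp, hf⟩, rfl⟩ := h1
    rcases h2 with h2 | h2 | h2 | h2 | h2
    · exfalso; simp [kRa] at h2
    · simp only [kRb, mem_image, mem_filter, mem_product, mem_range, Prod.exists,
        Key.mk.injEq] at h2
      obtain ⟨s', u', ⟨-, -, hl1, hl2, hCR⟩, -, rfl, hw, -, -, rfl, hfl⟩ := h2
      have hfl' : fR R s' i < l := lt_of_split hfl.symm hf hl2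
      simp only [CR, not_forall] at hCR
      obtain ⟨k, hkl, hks, hRk, hku⟩ := hCR
      have hkf : k < fR R s' i := same_half_gt hfl.symm hku hkl
      have hik : i < k := by
        apply lt_of_split (r := s')
        · rw [← hw]; exact (div_eq_of_le (Nat.le_succ _) hks).symm
        · exact hSp.2.1
        · rw [hks]; exact hl1
      exact hR i k _ l hik hkf hfl' hSp.2.2.2 hRk
    · exfalso; simp [kRc] at h2
    · exfalso; simp [kRd] at h2
    · exfalso; simp [kRe] at h2
  · -- type c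
    simp only [kLc, pL, mem_image, mem_filter, mem_product, mem_range, Prod.exists] at h1
    obtain ⟨s, r, u, ⟨⟨⟨-, -, hSp, hi, -⟩, -⟩, hf⟩, rfl⟩ := h1
    rcases h2 with h2 | h2 | h2 | h2 | h2
    · exfalso; simp [kRa] at h2
    · exfalso; simp [kRb] at h2
    · simp only [kRc, pR, mem_image, mem_filter, mem_product, mem_range, Prod.exists,
        Key.mk.injEq] at h2
      obtain ⟨s', u', r', ⟨⟨⟨-, -, hSp', hl, -⟩, -⟩, hg⟩, -, rfl, hw, rfl, hgi, rfl, hfl⟩ := h2
      have hig : i < gR R s' l := lt_of_split hgi.symm hi hg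
      have hfl' : fR R s' i < l := lt_of_split hfl.symm hf hl
      have hgf : gR R s' l < fR R s' i := by
        apply lt_of_split (r := s')
        · rw [hSp'.1, hw, hSp.1]
        · exact hSp'.2.1
        · exact hSp.2.2.1
      exact hR i _ _ l hig hgf hfl' hSp.2.2.2 hSp'.2.2.2
    · exfalso; simp [kRd] at h2
    · exfalso; simp [kRe] at h2
  · -- type d
    simp only [kLd, mem_image, mem_range] at h1
    obtain ⟨s, -, rfl⟩ := h1
    rcases h2 with h2 | h2 | h2 | h2 | h2
    · exfalso; simp [kRa] at h2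
    · exfalso; simp [kRb] at h2
    · exfalso; simp [kRc] at h2
    · simp only [kRd, mem_image, mem_filter, mem_range, Key.mk.injEq] at h2
      obtain ⟨s', ⟨-, hSp⟩, -, rfl, hg, -⟩ := h2
      rw [← hg]
      exact hSp.2.2.2
    · exfalso; simp [kRe] at h2
  · -- type e
    simp only [kLe, mem_image, mem_filter, mem_range] at h1
    obtain ⟨s, ⟨-, hSp⟩, rfl⟩ := h1
    rcases h2 with h2 | h2 | h2 | h2 | h2
    · exfalso; simp [kRa] at h2
    · exfalso; simp [kRb] at h2
    · exfalso; simp [kRc] at h2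
    · exfalso; simp [kRd] at h2
    · simp only [kRe, mem_image, mem_range, Key.mk.injEq] at h2
      obtain ⟨s', -, -, rfl, hf, -⟩ := h2
      rw [hf]
      exact hSp.2.2.2

/-! ### Completeness -/

theorem complete {R : ℕ → ℕ → Prop} {K i l : ℕ} (hil : i < l) (hl : l < 2 ^ K)
    (h : R i l) : ∃ key, key ∈ kL R K i ∧ key ∈ kR R K l := by
  classical
  have hK : i / 2 ^ K = l / 2 ^ K := by
    rw [Nat.div_eq_of_lt hl, Nat.div_eq_of_lt (hil.trans hl)]
  obtain ⟨s, hsK, hw, hi0, hl1⟩ := exists_split hil hK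
  have hSp : Sp R s i l := ⟨hw, hi0, hl1, h⟩
  have hf := fR_spec hSp
  have hg := gR_spec hSp
  have hfl := fR_le hSp
  have hig := le_gR hSp
  rcases hig.eq_or_lt with hig | hig
  · -- i = g
    refine ⟨Key.mk 3 s i 0 0 0 0, ?_, ?_⟩
    · simp only [kL, mem_union]
      right; right; right; left
      simp only [kLd, mem_image, mem_range]
      exact ⟨s, hsK, rfl⟩
    · simp only [kR, mem_union]
      right; right; right; left
      simp only [kRd, mem_image, mem_filter, mem_range]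
      exact ⟨s, ⟨hsK, hg⟩, by rw [← hig]⟩
  rcases hfl.eq_or_lt with hfl | hfl
  · -- f = l
    refine ⟨Key.mk 4 s l 0 0 0 0, ?_, ?_⟩
    · simp only [kL, mem_union]
      right; right; right; right
      simp only [kLe, mem_image, mem_filter, mem_range]
      exact ⟨s, ⟨hsK, hf⟩, by rw [hfl]⟩
    · simp only [kR, mem_union]
      right; right; right; right
      simp only [kRe, mem_image, mem_range]
      exact ⟨s, hsK, rfl⟩
  have hig_s : i / 2 ^ s = gR R s l / 2 ^ s := by
    have h1 := hg.1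
    have h2 := hg.2.1
    rw [← hw] at h1
    rw [div_pow_succ, div_pow_succ] at h1
    omega
  have hfl_s : fR R s i / 2 ^ s = l / 2 ^ s := by
    have h1 := hf.1
    have h2 := hf.2.2.1
    rw [hw] at h1
    rw [div_pow_succ, div_pow_succ] at h1
    omega
  obtain ⟨r, hrs, hr1, hr2, hr3⟩ := exists_split hig hig_s
  obtain ⟨u, hus, hu1, hu2, hu3⟩ := exists_split hfl hfl_s
  by_cases hCL : CL R i s r
  swap
  · refine ⟨Key.mk 0 s (i / 2 ^ (s + 1)) r (i / 2 ^ (r + 1)) 0 0, ?_, ?_⟩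
    · simp only [kL, mem_union]
      left
      simp only [kLa, mem_image, mem_filter, mem_product, mem_range, Prod.exists]
      exact ⟨s, r, ⟨⟨hsK, by omega⟩, hrs, hi0, hr2, hCL⟩, rfl⟩
    · simp only [kR, mem_union]
      left
      simp only [kRa, mem_image, mem_filter, mem_product, mem_range, Prod.exists]
      exact ⟨s, r, ⟨⟨hsK, by omega⟩, hrs, hg, hr3⟩, by rw [hw, hr1]⟩
  by_cases hCR : CR R l s u
  swap
  · refine ⟨Key.mk 1 s (i / 2 ^ (s + 1)) 0 0 u (l / 2 ^ (u + 1)), ?_, ?_⟩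
    · simp only [kL, mem_union]
      right; left
      simp only [kLb, mem_image, mem_filter, mem_product, mem_range, Prod.exists]
      exact ⟨s, u, ⟨⟨hsK, by omega⟩, hus, hf, hu2⟩, by rw [hu1]⟩
    · simp only [kR, mem_union]
      right; left
      simp only [kRb, mem_image, mem_filter, mem_product, mem_range, Prod.exists]
      exact ⟨s, u, ⟨⟨hsK, by omega⟩, hus, hl1, hu3, hCR⟩, by rw [hw]⟩
  refine ⟨Key.mk 2 s (i / 2 ^ (s + 1)) r (i / 2 ^ (r + 1)) u (l / 2 ^ (u + 1)), ?_, ?_⟩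
  · simp only [kL, mem_union]
    right; right; left
    simp only [kLc, pL, mem_image, mem_filter, mem_product, mem_range, Prod.exists]
    exact ⟨s, r, u, ⟨⟨⟨⟨hsK, by omega⟩, hrs, hf, hr2, hCL⟩, by omega⟩, hu2⟩, by rw [hu1]⟩
  · simp only [kR, mem_union]
    right; right; left
    simp only [kRc, pR, mem_image, mem_filter, mem_product, mem_range, Prod.exists]
    exact ⟨s, u, r, ⟨⟨⟨⟨hsK, by omega⟩, hus, hg, hu3, hCR⟩, by omega⟩, hr3⟩, by rw [hw, hr1]⟩

/-! ### From keys to a cover -/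

theorem cover_of_keys {n : ℕ} (G : SimpleGraph (Fin n)) {κ : Type} [DecidableEq κ]
    (kL kR : Fin n → Finset κ) (hsound : ∀ i l key, key ∈ kL i → key ∈ kR l → G.Adj i l)
    (hcomplete : ∀ i l, i < l → G.Adj i l → ∃ key, key ∈ kL i ∧ key ∈ kR l) (b : ℕ)
    (hL : ∀ i, (kL i).card ≤ b) (hR : ∀ l, (kR l).card ≤ b) :
    ∃ (m : ℕ) (A B : Fin m → Finset (Fin n)),
      (∀ t, (A t).Nonempty ∧ (B t).Nonempty ∧ Disjoint (A t) (B t) ∧
        ∀ x ∈ A t, ∀ y ∈ B t, G.Adj x y) ∧
      (∀ x y, G.Adj x y → ∃ t, (x ∈ A t ∧ y ∈ B t) ∨ (y ∈ A t ∧ x ∈ B t)) ∧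
      ∑ t, ((A t).card + (B t).card) ≤ 2 * (n * b) := by
  classical
  set S : Finset κ := (univ.biUnion kL) ∩ (univ.biUnion kR) with hS
  set e : Fin S.card ≃ S := S.equivFin.symm with he
  refine ⟨S.card, fun t => univ.filter (fun i => (e t : κ) ∈ kL i),
    fun t => univ.filter (fun l => (e t : κ) ∈ kR l), ?_, ?_, ?_⟩
  · intro t
    have hmem : (e t : κ) ∈ (univ.biUnion kL) ∩ (univ.biUnion kR) := (e t).2
    rw [mem_inter, mem_biUnion, mem_biUnion] at hmem
    obtain ⟨⟨i, -, hi⟩, ⟨l, -, hl⟩⟩ := hmem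
    refine ⟨⟨i, by simpa using hi⟩, ⟨l, by simpa using hl⟩, ?_, ?_⟩
    · rw [Finset.disjoint_left]
      intro x hx hx'
      simp only [mem_filter, mem_univ, true_and] at hx hx'
      exact G.loopless.irrefl x (hsound x x _ hx hx')
    · intro x hx y hy
      simp only [mem_filter, mem_univ, true_and] at hx hy
      exact hsound x y _ hx hy
  · have main : ∀ x y, x < y → G.Adj x y → ∃ t, (e t : κ) ∈ kL x ∧ (e t : κ) ∈ kR y := by
      intro x y hxy hadj
      obtain ⟨key, h1, h2⟩ := hcomplete x y hxy hadj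
      have hmem : key ∈ S := by
        rw [hS, mem_inter, mem_biUnion, mem_biUnion]
        exact ⟨⟨x, mem_univ _, h1⟩, ⟨y, mem_univ _, h2⟩⟩
      refine ⟨e.symm ⟨key, hmem⟩, ?_, ?_⟩ <;> simpa using by assumption
    intro x y hadj
    rcases lt_trichotomy x y with h | h | h
    · obtain ⟨t, h1, h2⟩ := main x y h hadj
      exact ⟨t, Or.inl (by simpa using ⟨h1, h2⟩)⟩
    · subst h
      exact (G.loopless.irrefl x hadj).elim
    · obtain ⟨t, h1, h2⟩ := main y x h hadj.symm
      exact ⟨t, Or.inr (by simpa using ⟨h1, h2⟩)⟩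
  · have count : ∀ k : Fin n → Finset κ, (∀ i, (k i).card ≤ b) →
        ∑ t, (univ.filter (fun i => (e t : κ) ∈ k i)).card ≤ n * b := by
      intro k hk
      have h1 : ∑ t, (univ.filter (fun i => (e t : κ) ∈ k i)).card
          = ∑ x : S, (univ.filter (fun i => (x : κ) ∈ k i)).card :=
        Equiv.sum_comp e (fun x : S => (univ.filter (fun i => (x : κ) ∈ k i)).card)
      rw [h1]
      have h2 : ∑ x : S, (univ.filter (fun i => (x : κ) ∈ k i)).card
          = ∑ x ∈ S, (univ.filter (fun i => x ∈ k i)).card :=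
        Finset.sum_coe_sort S (fun x => (univ.filter (fun i => x ∈ k i)).card)
      rw [h2]
      simp only [Finset.card_filter]
      rw [Finset.sum_comm]
      calc ∑ i : Fin n, ∑ x ∈ S, (if x ∈ k i then 1 else 0)
          ≤ ∑ _i : Fin n, b := by
            apply Finset.sum_le_sum
            intro i _
            rw [← Finset.card_filter]
            refine le_trans (Finset.card_le_card ?_) (hk i)
            intro x hx
            simp only [mem_filter] at hx
            exact hx.2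
        _ = n * b := by simp
    have h1 := count kL hL
    have h2 := count kR hR
    calc ∑ t, ((univ.filter (fun i => (e t : κ) ∈ kL i)).card +
          (univ.filter (fun l => (e t : κ) ∈ kR l)).card)
        = ∑ t, (univ.filter (fun i => (e t : κ) ∈ kL i)).card +
          ∑ t, (univ.filter (fun l => (e t : κ) ∈ kR l)).card := Finset.sum_add_distrib
      _ ≤ n * b + n * b := Nat.add_le_add h1 h2
      _ = 2 * (n * b) := by ring

end Pool.Agent.W_MP_7bf775_co
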